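import Mathlib

/-!
# MP_332ffb_mp: an open quantum graph without loops, with irrational lengths and an eigenvalue

Two vertices joined by two edges of lengths `t` and `t + π`, with a lead at the first vertex and a
pendant edge of length `c` at the second one, `tan t = 1/2`, `tan c = 4`, have the embedded
eigenvalue `1`, and `t`, `t + π`, `c` are linearly independent over the integers.
-/

set_option autoImplicit false

namespace Pool.Agent.Results.MP_332ffb_mp.EmbeddedEigenvalue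

open Complex

/-- A finite combinatorial graph with leads: every edge `e` has the ends `src e` and `tgt e`, and
every lead `i` is attached to the vertex `root i`. -/
structure OpenGraph where
  /-- vertices -/
  V : Type
  /-- edges -/
  E : Type
  /-- leads -/
  Ld : Type
  [fV : Fintype V]
  [dV : DecidableEq V]
  [fE : Fintype E]
  [fL : Fintype Ld]
  /-- the first end of an edge -/
  src : E → V
  /-- the second end of an edge -/
  tgt : E → V
  /-- the vertex to which a lead is attached -/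
  root : Ld → V

attribute [instance] OpenGraph.fV OpenGraph.dV OpenGraph.fE OpenGraph.fL

/-- The degree of a vertex in the graph with the leads. -/
def OpenGraph.degree (G : OpenGraph) (v : G.V) : ℕ :=
  (Finset.univ.filter (fun e => G.src e = v)).card +
    (Finset.univ.filter (fun e => G.tgt e = v)).card +
    (Finset.univ.filter (fun i => G.root i = v)).card

/-- `G` is admissible: it is connected, it has at least one vertex and at least one lead, it has
no loops, and no vertex has degree `2` after the leads are attached. -/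
def OpenGraph.Admissible (G : OpenGraph) : Prop :=
  Nonempty G.V ∧ (∀ u v : G.V, Relation.EqvGen (fun a b => ∃ e, G.src e = a ∧ G.tgt e = b) u v) ∧
  Nonempty G.Ld ∧ (∀ e, G.src e ≠ G.tgt e) ∧ ∀ v, G.degree v ≠ 2

/-- The functions `f e` on the edges `[0, l e]` (parametrised from `src e` to `tgt e`) and `g i` on
the leads `[0, ∞)` form a nonzero `L²` eigenfunction of `-d²/dx²` with Kirchhoff conditions, for
the eigenvalue `lam`; here `f' e` and `g' i` are the derivatives. -/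
structure IsEigenfunction (G : OpenGraph) (l : G.E → ℝ) (lam : ℝ) (f f' : G.E → ℝ → ℂ)
    (g g' : G.Ld → ℝ → ℂ) : Prop where
  deriv_edge : ∀ e, ∀ x ∈ Set.Icc 0 (l e), HasDerivWithinAt (f e) (f' e x) (Set.Icc 0 (l e)) x
  deriv2_edge : ∀ e, ∀ x ∈ Set.Icc 0 (l e),
    HasDerivWithinAt (f' e) (-(lam * f e x)) (Set.Icc 0 (l e)) x
  deriv_lead : ∀ i, ∀ x ∈ Set.Ici (0 : ℝ), HasDerivWithinAt (g i) (g' i x) (Set.Ici 0) x
  deriv2_lead : ∀ i, ∀ x ∈ Set.Ici (0 : ℝ),
    HasDerivWithinAt (g' i) (-(lam * g i x)) (Set.Ici 0) x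
  square_integrable : ∀ i, MeasureTheory.IntegrableOn (fun x => ‖g i x‖ ^ 2) (Set.Ici 0)
  continuous : ∃ val : G.V → ℂ, (∀ e, f e 0 = val (G.src e) ∧ f e (l e) = val (G.tgt e)) ∧
    ∀ i, g i 0 = val (G.root i)
  kirchhoff : ∀ v, (∑ e ∈ Finset.univ.filter (fun e => G.src e = v), f' e 0) -
    (∑ e ∈ Finset.univ.filter (fun e => G.tgt e = v), f' e (l e)) +
    (∑ i ∈ Finset.univ.filter (fun i => G.root i = v), g' i 0) = 0
  nonzero : (∃ e, ∃ x ∈ Set.Icc 0 (l e), f e x ≠ 0) ∨ ∃ i, ∃ x ∈ Set.Ici (0 : ℝ), g i x ≠ 0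

/-- `t = arctan (1/2)` -/
noncomputable def t : ℝ := Real.arctan (1 / 2)

/-- `c = arctan 4` -/
noncomputable def c : ℝ := Real.arctan 4

theorem sqrt5 : √(1 + (1 / 2 : ℝ) ^ 2) = √5 / 2 := by
  rw [show (1 + (1 / 2 : ℝ) ^ 2) = 5 / 2 ^ 2 by norm_num, Real.sqrt_div (by norm_num),
    Real.sqrt_sq (by norm_num)]

theorem cos_t : Real.cos t = 2 / √5 := by
  rw [t, Real.cos_arctan, sqrt5]
  rw [one_div_div]

theorem sin_t : Real.sin t = 1 / √5 := by
  rw [t, Real.sin_arctan, sqrt5, div_div_div_cancel_right₀ (by norm_num)]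

theorem cos_c : Real.cos c = 1 / √17 := by
  rw [c, Real.cos_arctan]
  norm_num

theorem sin_c : Real.sin c = 4 / √17 := by
  rw [c, Real.sin_arctan]
  norm_num

theorem s5 : (√5 : ℝ) ≠ 0 := by positivity

theorem s17 : (√17 : ℝ) ≠ 0 := by positivity

theorem t_pos : 0 < t := Real.arctan_pos.2 (by norm_num)

theorem c_pos : 0 < c := Real.arctan_pos.2 (by norm_num)

/-! ### linear independence -/

theorem f1 (ε : ℤ) (hε : ε = 1 ∨ ε = -1) : (3 * (ε : ZMod 5)) * (3 * ε) = ((-1 : ℤ) : ZMod 5) := by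
  rcases hε with rfl | rfl <;> decide

theorem f2 (ε : ℤ) (hε : ε = 1 ∨ ε = -1) : (2 + (ε : ZMod 5) * (3 * ε)) = 0 := by
  rcases hε with rfl | rfl <;> decide

theorem f3 (ε : ℤ) (hε : ε = 1 ∨ ε = -1) : (2 + ((-ε : ℤ) : ZMod 5) * (3 * ε)) ≠ 0 := by
  rcases hε with rfl | rfl <;> decide

theorem f4 (ε δ : ℤ) (hε : ε = 1 ∨ ε = -1) (hδ : δ = 1 ∨ δ = -1) :
    (1 + ((-(4 * δ) : ℤ) : ZMod 5) * (3 * ε)) ≠ 0 := by
  rcases hε with rfl | rfl <;> rcases hδ with rfl | rfl <;> decide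

theorem g1 (δ : ℤ) (hδ : δ = 1 ∨ δ = -1) :
    (4 * (δ : ZMod 17)) * (4 * δ) = ((-1 : ℤ) : ZMod 17) := by
  rcases hδ with rfl | rfl <;> decide

theorem g2 (δ : ℤ) (hδ : δ = 1 ∨ δ = -1) : (1 + ((4 * δ : ℤ) : ZMod 17) * (4 * δ)) = 0 := by
  rcases hδ with rfl | rfl <;> decide

theorem g3 (ε δ : ℤ) (hε : ε = 1 ∨ ε = -1) (hδ : δ = 1 ∨ δ = -1) :
    (2 + ((-ε : ℤ) : ZMod 17) * (4 * δ)) ≠ 0 := by
  rcases hε with rfl | rfl <;> rcases hδ with rfl | rfl <;> decide

theorem g4 (δ : ℤ) (hδ : δ = 1 ∨ δ = -1) : (1 + ((-(4 * δ) : ℤ) : ZMod 17) * (4 * δ)) ≠ 0 := by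
  rcases hδ with rfl | rfl <;> decide

theorem gauss (a b : ℕ) (ε δ : ℤ) (hε : ε = 1 ∨ ε = -1) (hδ : δ = 1 ∨ δ = -1)
    (h : (⟨2, ε⟩ : GaussianInt) ^ a * ⟨1, 4 * δ⟩ ^ b = ⟨2, -ε⟩ ^ a * ⟨1, -(4 * δ)⟩ ^ b) :
    a = 0 ∧ b = 0 := by
  have hom5 : ∀ r : ZMod 5, r * r = ((-1 : ℤ) : ZMod 5) → (2 + (ε : ZMod 5) * r) ^ a *
      (1 + ((4 * δ : ℤ) : ZMod 5) * r) ^ b = (2 + ((-ε : ℤ) : ZMod 5) * r) ^ a *
      (1 + ((-(4 * δ) : ℤ) : ZMod 5) * r) ^ b := by
    intro r hr
    have h2 := congrArg (Zsqrtd.lift ⟨r, hr⟩) h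
    simpa only [map_mul, map_pow, Zsqrtd.lift_apply_apply, Int.cast_ofNat, Int.cast_one] using h2
  have hom17 : ∀ r : ZMod 17, r * r = ((-1 : ℤ) : ZMod 17) → (2 + (ε : ZMod 17) * r) ^ a *
      (1 + ((4 * δ : ℤ) : ZMod 17) * r) ^ b = (2 + ((-ε : ℤ) : ZMod 17) * r) ^ a *
      (1 + ((-(4 * δ) : ℤ) : ZMod 17) * r) ^ b := by
    intro r hr
    have h2 := congrArg (Zsqrtd.lift ⟨r, hr⟩) h
    simpa only [map_mul, map_pow, Zsqrtd.lift_apply_apply, Int.cast_ofNat, Int.cast_one] using h2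
  have : Fact (Nat.Prime 5) := ⟨by norm_num⟩
  have : Fact (Nat.Prime 17) := ⟨by norm_num⟩
  constructor
  · by_contra ha
    have h5 := hom5 (3 * ε) (f1 ε hε)
    rw [f2 ε hε, zero_pow ha, zero_mul] at h5
    exact mul_ne_zero (pow_ne_zero _ (f3 ε hε)) (pow_ne_zero _ (f4 ε δ hε hδ)) h5.symm
  · by_contra hb
    have h17 := hom17 (4 * δ) (g1 δ hδ)
    rw [g2 δ hδ, zero_pow hb, mul_zero] at h17
    exact mul_ne_zero (pow_ne_zero _ (g3 ε δ hε hδ)) (pow_ne_zero _ (g4 δ hδ)) h17.symm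

theorem exp_t (ε : ℤ) (hε : ε = 1 ∨ ε = -1) :
    (2 + ε * I : ℂ) = (√5 : ℝ) * exp ((ε * t : ℝ) * I) := by
  rw [exp_mul_I, ← ofReal_cos, ← ofReal_sin]
  rcases hε with rfl | rfl
  · push_cast
    rw [one_mul, one_mul, ← ofReal_cos, ← ofReal_sin, cos_t, sin_t]
    push_cast
    have : ((√5 : ℝ) : ℂ) ≠ 0 := by exact_mod_cast s5
    field_simp
  · push_cast
    simp only [neg_one_mul, Complex.cos_neg, Complex.sin_neg]
    rw [← ofReal_cos, ← ofReal_sin, cos_t, sin_t]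
    push_cast
    have : ((√5 : ℝ) : ℂ) ≠ 0 := by exact_mod_cast s5
    field_simp

theorem exp_c (δ : ℤ) (hδ : δ = 1 ∨ δ = -1) :
    (1 + (4 * δ : ℤ) * I : ℂ) = (√17 : ℝ) * exp ((δ * c : ℝ) * I) := by
  rw [exp_mul_I, ← ofReal_cos, ← ofReal_sin]
  rcases hδ with rfl | rfl
  · push_cast
    rw [one_mul, ← ofReal_cos, ← ofReal_sin, cos_c, sin_c]
    push_cast
    have : ((√17 : ℝ) : ℂ) ≠ 0 := by exact_mod_cast s17
    field_simp
  · push_cast
    simp only [neg_one_mul, Complex.cos_neg, Complex.sin_neg]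
    rw [← ofReal_cos, ← ofReal_sin, cos_c, sin_c]
    push_cast
    have : ((√17 : ℝ) : ℂ) ≠ 0 := by exact_mod_cast s17
    field_simp

theorem indep_aux (a b : ℕ) (ε δ m : ℤ) (hε : ε = 1 ∨ ε = -1) (hδ : δ = 1 ∨ δ = -1)
    (h : (ε * a) * t + (δ * b) * c = m * Real.pi) : a = 0 ∧ b = 0 := by
  apply gauss a b ε δ hε hδ
  apply GaussianInt.toComplex_injective
  simp only [map_mul, map_pow, GaussianInt.toComplex_def']
  have hε' : -ε = 1 ∨ -ε = -1 := by omega
  have hδ' : -δ = 1 ∨ -δ = -1 := by omega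
  have e1 := exp_t ε hε
  have e2 := exp_c δ hδ
  have e3 := exp_t (-ε) hε'
  have e4 := exp_c (-δ) hδ'
  have c2 : ((2 : ℤ) : ℂ) = 2 := by norm_num
  have c1 : ((1 : ℤ) : ℂ) = 1 := by norm_num
  have c4 : -(4 * δ) = 4 * (-δ) := by ring
  rw [c2, c1, c4, e1, e2, e3, e4, mul_pow, mul_pow, mul_pow, mul_pow, ← exp_nat_mul, ← exp_nat_mul,
    ← exp_nat_mul, ← exp_nat_mul]
  have key : exp (a * (((ε : ℤ) * t : ℝ) * I)) * exp (b * (((δ : ℤ) * c : ℝ) * I)) =
      exp (a * (((-ε : ℤ) * t : ℝ) * I)) * exp (b * (((-δ : ℤ) * c : ℝ) * I)) := by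
    rw [← exp_add, ← exp_add, exp_eq_exp_iff_exists_int]
    refine ⟨m, ?_⟩
    have h2 : (((ε * a) * t + (δ * b) * c : ℝ) : ℂ) = ((m * Real.pi : ℝ) : ℂ) := by rw [h]
    push_cast at h2 ⊢
    linear_combination (2 * I) * h2
  calc _ = ((√5 : ℝ) : ℂ) ^ a * ((√17 : ℝ) : ℂ) ^ b *
        (exp (a * (((ε : ℤ) * t : ℝ) * I)) * exp (b * (((δ : ℤ) * c : ℝ) * I))) := by ring
    _ = _ := by rw [key]; ring

theorem exists_sign (p : ℤ) : ∃ (a : ℕ) (ε : ℤ), (ε = 1 ∨ ε = -1) ∧ p = ε * a := by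
  rcases Int.eq_nat_or_neg p with ⟨n, rfl | rfl⟩
  · exact ⟨n, 1, Or.inl rfl, by ring⟩
  · exact ⟨n, -1, Or.inr rfl, by ring⟩

theorem indep (p q m : ℤ) (h : p * t + m * Real.pi + q * c = 0) : p = 0 ∧ m = 0 ∧ q = 0 := by
  obtain ⟨a, ε, hε, rfl⟩ := exists_sign p
  obtain ⟨b, δ, hδ, rfl⟩ := exists_sign q
  obtain ⟨rfl, rfl⟩ := indep_aux a b ε δ (-m) hε hδ (by push_cast at h ⊢; linarith)
  refine ⟨by simp, ?_, by simp⟩
  have : (m : ℝ) * Real.pi = 0 := by simpa using h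
  rcases mul_eq_zero.1 this with h | h
  · exact_mod_cast h
  · exact absurd h Real.pi_ne_zero

/-! ### the graph -/

/-- the graph: vertices `0, 1, 2`, two edges from `0` to `1`, one edge from `1` to `2`, one lead at
`0` -/
def G : OpenGraph where
  V := Fin 3
  E := Fin 3
  Ld := Unit
  src := ![0, 0, 1]
  tgt := ![1, 1, 2]
  root := fun _ => 0

/-- the lengths -/
noncomputable def len : G.E → ℝ := ![t, t + Real.pi, c]

theorem G_admissible : G.Admissible := by
  refine ⟨⟨(0 : Fin 3)⟩, ?_, ⟨()⟩, by decide, by decide⟩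
  have h01 : Relation.EqvGen (fun a b => ∃ e, G.src e = a ∧ G.tgt e = b) (0 : Fin 3) (1 : Fin 3) :=
    Relation.EqvGen.rel _ _ ⟨(0 : Fin 3), rfl, rfl⟩
  have h12 : Relation.EqvGen (fun a b => ∃ e, G.src e = a ∧ G.tgt e = b) (1 : Fin 3) (2 : Fin 3) :=
    Relation.EqvGen.rel _ _ ⟨(2 : Fin 3), rfl, rfl⟩
  have h0 : ∀ v : Fin 3, Relation.EqvGen (fun a b => ∃ e, G.src e = a ∧ G.tgt e = b) (0 : Fin 3) v := by
    intro v
    fin_cases v
    · exact Relation.EqvGen.refl _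
    · exact h01
    · exact h01.trans _ _ _ h12
  intro u v
  exact ((h0 u).symm).trans _ _ _ (h0 v)

theorem len_indep : LinearIndependent ℤ len := by
  have h := Fintype.linearIndependent_iff (R := ℤ) (v := (len : Fin 3 → ℝ))
  refine h.2 ?_
  change ∀ g : Fin 3 → ℤ, ∑ i : Fin 3, g i • (len : Fin 3 → ℝ) i = 0 → ∀ i : Fin 3, g i = 0
  intro g hg
  rw [Fin.sum_univ_three] at hg
  change g 0 • t + g 1 • (t + Real.pi) + g 2 • c = 0 at hg
  simp only [zsmul_eq_mul] at hg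
  obtain ⟨h1, h2, h3⟩ := indep (g 0 + g 1) (g 2) (g 1) (by push_cast; linarith)
  intro i
  fin_cases i
  · change g 0 = 0; omega
  · change g 1 = 0; exact h2
  · change g 2 = 0; exact h3

/-- the eigenfunction -/
noncomputable def f : G.E → ℝ → ℂ :=
  ![fun x => (Real.sin x : ℝ), fun x => (-Real.sin x : ℝ),
    fun x => (√17 / √5 * Real.cos (c - x) : ℝ)]

/-- its derivative -/
noncomputable def f' : G.E → ℝ → ℂ :=
  ![fun x => (Real.cos x : ℝ), fun x => (-Real.cos x : ℝ),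
    fun x => (√17 / √5 * Real.sin (c - x) : ℝ)]

theorem real_deriv (F F' : ℝ → ℝ) (h : ∀ x, HasDerivAt F (F' x) x) (S : Set ℝ) (x : ℝ) :
    HasDerivWithinAt (fun x => ((F x : ℝ) : ℂ)) ((F' x : ℝ) : ℂ) S x :=
  (h x).ofReal_comp.hasDerivWithinAt

theorem eigen : IsEigenfunction G len 1 f f' (fun _ _ => 0) (fun _ _ => 0) where
  deriv_edge := by
    change ∀ e : Fin 3, ∀ x ∈ Set.Icc 0 (len e),
      HasDerivWithinAt (f e) (f' e x) (Set.Icc 0 (len e)) x
    intro e x _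
    fin_cases e
    · exact real_deriv Real.sin Real.cos Real.hasDerivAt_sin _ x
    · exact real_deriv (fun x => -Real.sin x) (fun x => -Real.cos x)
        (fun x => (Real.hasDerivAt_sin x).neg) _ x
    · refine real_deriv (fun x => √17 / √5 * Real.cos (c - x))
        (fun x => √17 / √5 * Real.sin (c - x)) (fun x => ?_) _ x
      exact (((Real.hasDerivAt_cos (c - x)).comp x ((hasDerivAt_id x).const_sub c)).const_mul
        (√17 / √5)).congr_deriv (by ring)
  deriv2_edge := by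
    change ∀ e : Fin 3, ∀ x ∈ Set.Icc 0 (len e),
      HasDerivWithinAt (f' e) (-(((1 : ℝ) : ℂ) * f e x)) (Set.Icc 0 (len e)) x
    intro e x _
    fin_cases e
    · have h := real_deriv Real.cos (fun x => -Real.sin x) Real.hasDerivAt_cos
        (Set.Icc 0 (len (0 : Fin 3))) x
      refine h.congr_deriv ?_
      change _ = -(((1 : ℝ) : ℂ) * ((Real.sin x : ℝ) : ℂ))
      push_cast; ring
    · have h := real_deriv (fun x => -Real.cos x) (fun x => Real.sin x)
        (fun x => (Real.hasDerivAt_cos x).neg.congr_deriv (by ring)) (Set.Icc 0 (len (1 : Fin 3))) x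
      refine h.congr_deriv ?_
      change _ = -(((1 : ℝ) : ℂ) * ((-Real.sin x : ℝ) : ℂ))
      push_cast; ring
    · have h := real_deriv (fun x => √17 / √5 * Real.sin (c - x))
        (fun x => -(√17 / √5 * Real.cos (c - x))) (fun x =>
          (((Real.hasDerivAt_sin (c - x)).comp x
            ((hasDerivAt_id x).const_sub c)).const_mul (√17 / √5)).congr_deriv (by ring))
        (Set.Icc 0 (len (2 : Fin 3))) x
      refine h.congr_deriv ?_
      change _ = -(((1 : ℝ) : ℂ) * ((√17 / √5 * Real.cos (c - x) : ℝ) : ℂ))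
      push_cast; ring
  deriv_lead := by
    intro i x _
    exact hasDerivWithinAt_const _ _ _
  deriv2_lead := by
    intro i x _
    simpa using hasDerivWithinAt_const x (Set.Ici (0 : ℝ)) (0 : ℂ)
  square_integrable := by
    intro i
    simp
  continuous := by
    refine ⟨(![0, ((1 / √5 : ℝ) : ℂ), ((√17 / √5 : ℝ) : ℂ)] : Fin 3 → ℂ), ?_, fun _ => rfl⟩
    change ∀ e : Fin 3, _
    intro e
    fin_cases e
    · constructor
      · change ((Real.sin 0 : ℝ) : ℂ) = 0; simp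
      · change ((Real.sin t : ℝ) : ℂ) = ((1 / √5 : ℝ) : ℂ)
        rw [sin_t]
    · constructor
      · change ((-Real.sin 0 : ℝ) : ℂ) = 0; simp
      · change ((-Real.sin (t + Real.pi) : ℝ) : ℂ) = ((1 / √5 : ℝ) : ℂ)
        rw [Real.sin_add_pi, neg_neg, sin_t]
    · constructor
      · change ((√17 / √5 * Real.cos (c - 0) : ℝ) : ℂ) = ((1 / √5 : ℝ) : ℂ)
        rw [sub_zero, cos_c]
        have := s17
        congr 1
        field_simp
      · change ((√17 / √5 * Real.cos (c - c) : ℝ) : ℂ) = ((√17 / √5 : ℝ) : ℂ)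
        simp
  kirchhoff := by
    change ∀ v : Fin 3, _
    intro v
    have e0 : (Finset.univ.filter (fun e : Fin 3 => (![0, 0, 1] : Fin 3 → Fin 3) e = 0)) = {0, 1} := by
      decide
    have e1 : (Finset.univ.filter (fun e : Fin 3 => (![0, 0, 1] : Fin 3 → Fin 3) e = 1)) = {2} := by
      decide
    have e2 : (Finset.univ.filter (fun e : Fin 3 => (![0, 0, 1] : Fin 3 → Fin 3) e = 2)) = ∅ := by
      decide
    have g0 : (Finset.univ.filter (fun e : Fin 3 => (![1, 1, 2] : Fin 3 → Fin 3) e = 0)) = ∅ := by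
      decide
    have g1 : (Finset.univ.filter (fun e : Fin 3 => (![1, 1, 2] : Fin 3 → Fin 3) e = 1)) = {0, 1} := by
      decide
    have g2 : (Finset.univ.filter (fun e : Fin 3 => (![1, 1, 2] : Fin 3 → Fin 3) e = 2)) = {2} := by
      decide
    have h5 := s5
    have h17 := s17
    rw [Finset.sum_const_zero, add_zero]
    fin_cases v
    · change (∑ e ∈ Finset.univ.filter (fun e : Fin 3 => (![0, 0, 1] : Fin 3 → Fin 3) e = 0), f' e 0)
        - (∑ e ∈ Finset.univ.filter (fun e : Fin 3 => (![1, 1, 2] : Fin 3 → Fin 3) e = 0),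
          f' e (len e)) = 0
      rw [e0, g0, Finset.sum_pair (by decide), Finset.sum_empty]
      change ((Real.cos 0 : ℝ) : ℂ) + ((-Real.cos 0 : ℝ) : ℂ) - 0 = 0
      simp
    · change (∑ e ∈ Finset.univ.filter (fun e : Fin 3 => (![0, 0, 1] : Fin 3 → Fin 3) e = 1), f' e 0)
        - (∑ e ∈ Finset.univ.filter (fun e : Fin 3 => (![1, 1, 2] : Fin 3 → Fin 3) e = 1),
          f' e (len e)) = 0
      rw [e1, g1, Finset.sum_pair (by decide), Finset.sum_singleton]
      change ((√17 / √5 * Real.sin (c - 0) : ℝ) : ℂ) -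
        (((Real.cos t : ℝ) : ℂ) + ((-Real.cos (t + Real.pi) : ℝ) : ℂ)) = 0
      rw [sub_zero, sin_c, Real.cos_add_pi, neg_neg, cos_t, ← ofReal_add, ← ofReal_sub]
      have : √17 / √5 * (4 / √17) - (2 / √5 + 2 / √5) = 0 := by
        field_simp
        norm_num
      rw [this, ofReal_zero]
    · change (∑ e ∈ Finset.univ.filter (fun e : Fin 3 => (![0, 0, 1] : Fin 3 → Fin 3) e = 2), f' e 0)
        - (∑ e ∈ Finset.univ.filter (fun e : Fin 3 => (![1, 1, 2] : Fin 3 → Fin 3) e = 2),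
          f' e (len e)) = 0
      rw [e2, g2, Finset.sum_singleton, Finset.sum_empty]
      change 0 - ((√17 / √5 * Real.sin (c - c) : ℝ) : ℂ) = 0
      simp
  nonzero := by
    left
    refine ⟨(0 : Fin 3), t, ⟨t_pos.le, le_refl _⟩, ?_⟩
    change ((Real.sin t : ℝ) : ℂ) ≠ 0
    rw [sin_t]
    have := s5
    exact_mod_cast one_div_ne_zero this

/-- **Disproof of Q1.** There are a finite connected graph without loops and with leads, no vertex
of degree `2`, and positive edge lengths which are linearly independent over the integers, such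
that the Kirchhoff Laplacian has an eigenvalue. -/
theorem result : ∃ G : OpenGraph, G.Admissible ∧ ∃ l : G.E → ℝ, (∀ e, 0 < l e) ∧
    LinearIndependent ℤ l ∧ ∃ (lam : ℝ) (f f' : G.E → ℝ → ℂ) (g g' : G.Ld → ℝ → ℂ),
      IsEigenfunction G l lam f f' g g' := by
  refine ⟨G, G_admissible, len, ?_, len_indep, 1, f, f', _, _, eigen⟩
  change ∀ e : Fin 3, _
  intro e
  fin_cases e
  · exact t_pos
  · exact add_pos t_pos Real.pi_pos
  · exact c_pos

end Pool.Agent.Results.MP_332ffb_mp.EmbeddedEigenvalue
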